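import Mathlib
import Pool.Agent.W546.GHC.Conv

/-!
# Divisorial coniveau in small level
-/

set_option linter.unusedSectionVars false
set_option linter.unusedVariables false

namespace Pool.Agent.TH170.LV

open NumberField Pool.Agent.H204R3.CM Pool.Agent.W546.GHC Module Equiv

noncomputable section

open Classical in
/-- For every word of at most `k` embeddings without two conjugate letters, and every `B ≤ L`
smaller by at least two than its length, some automorphism of `ℂ` moves the letters such that the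
numbers of letters inside and outside of the CM types differ by more than `B`. -/
def LevelFree {ι : Type*} {E : ι → Type*} [∀ i, Field (E i)] (Φ : ∀ i, Set (E i →+* ℂ))
    (k L : ℕ) : Prop :=
  ∀ n ≤ k, ∀ B ≤ L, B + 2 ≤ n → ∀ a : Fin n → Σ i, (E i →+* ℂ),
    (∀ l l', a l ≠ (⟨(a l').1, ComplexEmbedding.conjugate (a l').2⟩ : Σ i, (E i →+* ℂ))) →
    ∃ σ : ℂ ≃+* ℂ, (B : ℤ) <
      |∑ l, (if (σ : ℂ →+* ℂ).comp (a l).2 ∈ Φ (a l).1 then (1 : ℤ) else -1)|

section direct

variable {ι J : Type*} [Fintype ι] [Fintype J] {E : ι → Type*} [∀ i, Field (E i)]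
  [∀ i, NumberField (E i)] [∀ i, IsCMField (E i)]
  {L : Type*} [Field L] [NumberField L]
  {Φ : ∀ i, Set (E i →+* ℂ)} (t : J → ι) (jj : L →+* ℂ) {i : ℕ}

open Classical in
theorem exists_pairs' {j k M : ℕ} (hs : LevelFree Φ k M) (hik : i ≤ k) (hiM : i ≤ 2 * j + M)
    [IsGalois ℚ L] (hΦ : ∀ i, IsCMType (Φ i)) (I : Fin i → XX E t L)
    (hty : ∀ σ : L ≃ₐ[ℚ] L,
      j ≤ (Finset.univ.filter (fun l => jj.comp (σ • (I l).2) ∈ Φ (t (I l).1))).card ∧
      (Finset.univ.filter (fun l => jj.comp (σ • (I l).2) ∈ Φ (t (I l).1))).card + j ≤ i) :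
    ∃ (k : ℕ) (e : (Fin j × Fin 2) ⊕ Fin k ≃ Fin i),
      ∀ s, (⟨t (I (e (Sum.inl (s, 1)))).1, (I (e (Sum.inl (s, 1)))).2⟩ : Σ i, (E i →+* L)) =
      ⟨t (I (e (Sum.inl (s, 0)))).1, cbar (I (e (Sum.inl (s, 0)))).2⟩ := by
  let a : Fin i → Σ i, (E i →+* L) := fun l => ⟨t (I l).1, (I l).2⟩
  let inv : (Σ i, (E i →+* L)) → Σ i, (E i →+* L) := fun y => ⟨y.1, cbar y.2⟩
  have hinv : ∀ y, inv (inv y) = y := by
    rintro ⟨i, φ⟩
    simp only [inv, cbar_cbar]
  have hne : ∀ y, inv y ≠ y := by
    rintro ⟨i, φ⟩ hy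
    simp only [inv, Sigma.mk.injEq, heq_eq_eq, true_and] at hy
    exact cbar_ne φ hy
  obtain ⟨τ, hτ1, hτ2, hτ3⟩ := Pool.Agent.H485R3.GTC.exists_max_matching inv hinv a
  let toC : (Σ i, (E i →+* L)) → Σ i, (E i →+* ℂ) := fun y => ⟨y.1, jj.comp y.2⟩
  have htoC : ∀ y y' : Σ i, (E i →+* L), toC y = toC y' → y = y' := by
    rintro ⟨i, φ⟩ ⟨i', φ'⟩ h
    simp only [toC, Sigma.mk.injEq] at h
    obtain ⟨rfl, h⟩ := h
    have h' := eq_of_heq h
    have h2 : φ = φ' := by
      ext x
      exact jj.injective (RingHom.congr_fun h' x)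
    rw [h2]
  have hconj : ∀ y : Σ i, (E i →+* L),
      (⟨(toC y).1, ComplexEmbedding.conjugate (toC y).2⟩ : Σ i, (E i →+* ℂ)) = toC (inv y) := by
    rintro ⟨i, φ⟩
    simp only [toC, inv, comp_cbar]
  -- the sign of a letter
  let sg : (L ≃ₐ[ℚ] L) → Fin i → ℤ := fun g l =>
    if jj.comp (g • (I l).2) ∈ Φ (t (I l).1) then (1 : ℤ) else -1
  have hflip : ∀ g k, τ k ≠ k → sg g (τ k) = - sg g k := by
    intro g k hk
    have h1 := hτ2 k hk
    have key : ∀ y y' : Σ i, (E i →+* L), y' = inv y →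
        (jj.comp (g • y'.2) ∈ Φ y'.1 ↔ jj.comp (g • y.2) ∉ Φ y.1) := by
      rintro ⟨i, φ⟩ _ rfl
      have h3 : jj.comp (g • cbar φ) = ComplexEmbedding.conjugate (jj.comp (g • φ)) := by
        rw [← comp_cbar]
        rfl
      change jj.comp (g • cbar φ) ∈ Φ i ↔ _
      rw [h3]
      have h4 := hΦ i (jj.comp (g • φ))
      constructor
      · intro h5 h6
        exact (h4.1 h6) h5
      · intro h5
        exact conj_mem hΦ h5
    have h2 := key (a k) (a (τ k)) h1
    change (if jj.comp (g • (I (τ k)).2) ∈ Φ (t (I (τ k)).1) then (1 : ℤ) else -1) =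
      - (if jj.comp (g • (I k).2) ∈ Φ (t (I k).1) then (1 : ℤ) else -1)
    by_cases h3 : jj.comp (g • (I k).2) ∈ Φ (t (I k).1)
    · rw [if_pos h3, if_neg (fun h4 => (h2.1 h4) h3)]
    · rw [if_neg h3, if_pos (h2.2 h3), neg_neg]
  -- the representatives of the pairs
  let N : Finset (Fin i) := Finset.univ.filter (fun l => l < τ l)
  have hNmem : ∀ l, l ∈ N ↔ l < τ l := by
    intro l
    simp only [N, Finset.mem_filter, Finset.mem_univ, true_and]
  have hcard : (Finset.univ.filter (fun l => τ l ≠ l)).card = 2 * N.card := by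
    have h1 : Finset.univ.filter (fun l => τ l ≠ l) = N ∪ N.image τ := by
      ext l
      rw [Finset.mem_filter, Finset.mem_union, Finset.mem_image, hNmem]
      constructor
      · rintro ⟨-, h⟩
        rcases lt_or_gt_of_ne h with h2 | h2
        · right
          exact ⟨τ l, (hNmem _).2 (by rw [hτ1]; exact h2), hτ1 l⟩
        · exact Or.inl h2
      · rintro (h | ⟨l', h1, rfl⟩)
        · exact ⟨Finset.mem_univ _, h.ne'⟩
        · refine ⟨Finset.mem_univ _, ?_⟩
          rw [hτ1]
          exact ((hNmem _).1 h1).ne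
    have h2 : Disjoint N (N.image τ) := by
      rw [Finset.disjoint_left]
      intro l hl hl'
      obtain ⟨l', h1, rfl⟩ := Finset.mem_image.1 hl'
      have h3 := (hNmem _).1 h1
      have h4 := (hNmem _).1 hl
      rw [hτ1] at h4
      exact absurd h3 (not_lt.2 h4.le)
    rw [h1, Finset.card_union_of_disjoint h2, Finset.card_image_of_injective _ τ.injective]
    ring
  have hsplit : (Finset.univ.filter (fun l => τ l = l)).card +
      (Finset.univ.filter (fun l => ¬ τ l = l)).card = i := by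
    rw [Finset.card_filter_add_card_filter_not, Finset.card_univ, Fintype.card_fin]
  have hij : 2 * j ≤ i := by
    have h1 := hty 1
    omega
  have hN : j ≤ N.card := by
    by_contra hcon
    push Not at hcon
    set n := (Finset.univ.filter (fun l => τ l = l)).card with hn
    have hn1 : n + 2 * N.card = i := by
      rw [← hcard]
      exact hsplit
    let en : Fin n ≃ {l // l ∈ Finset.univ.filter (fun l => τ l = l)} :=
      (Finset.equivFin _).symm
    have hen : ∀ x, τ (en x).1 = (en x).1 := fun x => (Finset.mem_filter.1 (en x).2).2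
    obtain ⟨σ, hσ⟩ := hs n (by omega) (i - 2 * j) (by omega) (by omega)
      (fun x => toC (a (en x).1)) (by
        intro x y h
        rw [hconj] at h
        have h2 := htoC _ _ h
        by_cases hxy : (en x).1 = (en y).1
        · rw [hxy] at h2
          exact hne _ h2.symm
        · exact hτ3 (en y).1 (en x).1 (Ne.symm hxy) (hen y) (hen x) h2)
    obtain ⟨g, hg⟩ := Pool.Agent.H977R3.CM.exists_gal jj σ
    have h1 : ∀ x, (if (σ : ℂ →+* ℂ).comp (toC (a (en x).1)).2 ∈ Φ (toC (a (en x).1)).1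
        then (1 : ℤ) else -1) = sg g (en x).1 := by
      intro x
      have h2 : (σ : ℂ →+* ℂ).comp (toC (a (en x).1)).2 = jj.comp (g • (I (en x).1).2) := by
        ext y
        exact hg _
      rw [h2]
    rw [Finset.sum_congr rfl (fun x _ => h1 x)] at hσ
    have h2 : ∑ x, sg g (en x).1 = ∑ l ∈ Finset.univ.filter (fun l => τ l = l), sg g l := by
      rw [← Finset.sum_coe_sort (Finset.univ.filter (fun l => τ l = l)) (fun l => sg g l)]
      exact Equiv.sum_comp en (fun l => sg g l.1)
    have h3 : ∑ l ∈ Finset.univ.filter (fun l => ¬ τ l = l), sg g l = 0 := by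
      have h4 : ∑ l ∈ Finset.univ.filter (fun l => ¬ τ l = l), sg g l =
          ∑ l ∈ Finset.univ.filter (fun l => ¬ τ l = l), - sg g l := by
        refine Finset.sum_nbij' τ τ ?_ ?_ (fun l _ => hτ1 l) (fun l _ => hτ1 l) ?_
        · intro l hl
          rw [Finset.mem_filter] at hl ⊢
          refine ⟨Finset.mem_univ _, fun h => hl.2 ?_⟩
          rw [hτ1] at h
          exact h.symm
        · intro l hl
          rw [Finset.mem_filter] at hl ⊢
          refine ⟨Finset.mem_univ _, fun h => hl.2 ?_⟩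
          rw [hτ1] at h
          exact h.symm
        · intro l hl
          rw [hflip g l (Finset.mem_filter.1 hl).2, neg_neg]
      rw [Finset.sum_neg_distrib] at h4
      linarith
    have h4 : ∑ l, sg g l = ∑ l ∈ Finset.univ.filter (fun l => τ l = l), sg g l := by
      rw [← Finset.sum_filter_add_sum_filter_not _ (fun l => τ l = l), h3, add_zero]
    have h5 : ∑ l, sg g l = 2 * ((Finset.univ.filter
        (fun l => jj.comp (g • (I l).2) ∈ Φ (t (I l).1))).card : ℤ) - i := by
      have h6 : ∀ l, sg g l = 2 * (if jj.comp (g • (I l).2) ∈ Φ (t (I l).1) then (1 : ℤ) else 0) -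
          1 := by
        intro l
        change (if jj.comp (g • (I l).2) ∈ Φ (t (I l).1) then (1 : ℤ) else -1) = _
        split_ifs <;> ring
      rw [Finset.sum_congr rfl (fun l _ => h6 l), Finset.sum_sub_distrib, ← Finset.mul_sum,
        Finset.sum_boole, Finset.sum_const, Finset.card_univ, Fintype.card_fin]
      simp
    rw [h2, ← h4, h5] at hσ
    have h6 := hty g
    have h7 : |2 * ((Finset.univ.filter
        (fun l => jj.comp (g • (I l).2) ∈ Φ (t (I l).1))).card : ℤ) - i| ≤ ((i - 2 * j : ℕ) : ℤ) := by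
      rw [abs_le]
      constructor <;> omega
    exact absurd hσ (not_lt.2 h7)
  obtain ⟨N', hN'1, hN'2⟩ := Finset.exists_subset_card_eq hN
  let p : Fin j ≃ N' := (Fintype.equivFinOfCardEq (by rw [Fintype.card_coe, hN'2])).symm
  have hpN : ∀ s, (p s).1 < τ (p s).1 := fun s => (hNmem _).1 (hN'1 (p s).2)
  let g0 : Fin j × Fin 2 → Fin i := fun x => if x.2 = 0 then (p x.1).1 else τ (p x.1).1
  have hg0 : Function.Injective g0 := by
    rintro ⟨s, ε⟩ ⟨s', ε'⟩ h
    fin_cases ε <;> fin_cases ε'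
    · simp only [g0, Fin.zero_eta, if_true] at h
      have := p.injective (Subtype.ext h)
      rw [this]
    · simp [g0] at h
      exfalso
      have h1 := hpN s
      have h2 := hpN s'
      rw [h, hτ1] at h1
      exact absurd h1 (not_lt.2 h2.le)
    · simp [g0] at h
      exfalso
      have h1 := hpN s
      have h2 := hpN s'
      rw [← h, hτ1] at h2
      exact absurd h2 (not_lt.2 h1.le)
    · simp [g0] at h
      rw [h]
  let e1 : (Fin j × Fin 2) ≃ Set.range g0 := Equiv.ofInjective g0 hg0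
  let e2 : Fin (Fintype.card ↥((Set.range g0)ᶜ)) ≃ ↥((Set.range g0)ᶜ) := (Fintype.equivFin _).symm
  let e : (Fin j × Fin 2) ⊕ Fin (Fintype.card ↥((Set.range g0)ᶜ)) ≃ Fin i :=
    (Equiv.sumCongr e1 e2).trans (Equiv.Set.sumCompl (Set.range g0))
  have he : ∀ x, e (Sum.inl x) = g0 x := fun x => rfl
  refine ⟨_, e, fun s => ?_⟩
  rw [he, he]
  have h1 : g0 (s, 1) = τ (p s).1 := by simp [g0]
  have h2 : g0 (s, 0) = (p s).1 := by simp [g0]
  rw [h1, h2]
  exact hτ2 _ (hpN s).ne'

/-- The coniveau is divisorial for Hodge substructures of small level. -/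
theorem direct' (hΦ : ∀ i, IsCMType (Φ i)) {k M : ℕ} (hs : LevelFree Φ k M) (j : ℕ)
    (hik : i ≤ k) (hiM : i ≤ 2 * j + M) : DivisorialConiveau (per Φ t) i j := by
  classical
  obtain ⟨L, _, _, jj, h⟩ := exists_galois E
  intro V hV hlev f hf
  obtain ⟨c, hc⟩ := form_coeff t jj h f.toMultilinearMap
  have hL : (fun v : Fin i → ∀ a, E (t a) => ((f v : ℚ) : L)) ∈
      Submodule.span L {g | ∃ s ∈ prodSet' (per Φ t) i j, g = fun x => ((s x : ℚ) : L)} := by
    have h1 : (fun v : Fin i → ∀ a, E (t a) => ((f v : ℚ) : L)) =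
        ∑ I : Fin i → XX E t L, c I •
          (fun v : Fin i → ∀ a, E (t a) => ∏ l, chi E t L (v l) (I l)) := by
      funext v
      rw [Finset.sum_apply]
      exact hc v
    rw [h1]
    refine Submodule.sum_mem _ fun I _ => ?_
    by_cases hI : c I = 0
    · rw [hI, zero_smul]
      exact Submodule.zero_mem _
    · obtain ⟨k, e, he⟩ := exists_pairs' (j := j) t jj hs hik hiM hΦ I (fun σ =>
        types_of_mem t hΦ jj h V hV hlev f hf c hc I hI σ)
      exact Submodule.smul_mem _ _ (mono_mem' t hΦ I e he)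
  exact alt_mem _ f (span_descent _ _ hL)

end direct

end

end Pool.Agent.TH170.LV
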