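import Mathlib

/-!
# Random sums of signs: large values
-/

namespace Pool.Agent.TH170.LV

open Finset

variable {X : Type*} [DecidableEq X]

/-- the sum of the numbers `d x`, with the signs changed on `F` -/
def gs (T : Finset X) (d : X → ℤ) (F : Finset X) : ℤ := ∑ x ∈ T, (if x ∈ F then - d x else d x)

theorem gs_insert {a : X} {T : Finset X} (ha : a ∉ T) (d : X → ℤ) {F : Finset X} (hF : F ⊆ T) :
    gs (insert a T) d F = gs T d F + d a := by
  unfold gs
  rw [Finset.sum_insert ha, if_neg (fun h => ha (hF h)), add_comm]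

theorem gs_insert' {a : X} {T : Finset X} (ha : a ∉ T) (d : X → ℤ) (F : Finset X) :
    gs (insert a T) d (insert a F) = gs T d F - d a := by
  unfold gs
  rw [Finset.sum_insert ha, if_pos (Finset.mem_insert_self _ _), add_comm, sub_eq_add_neg]
  congr 1
  refine Finset.sum_congr rfl fun x hx => ?_
  have hxa : x ≠ a := fun h => ha (h ▸ hx)
  by_cases hxF : x ∈ F
  · rw [if_pos hxF, if_pos (Finset.mem_insert_of_mem hxF)]
  · rw [if_neg hxF, if_neg]
    rw [Finset.mem_insert]
    tauto

theorem sum_insert_powerset {a : X} {T : Finset X} (ha : a ∉ T) (d : X → ℤ) (φ : ℤ → ℤ) :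
    ∑ F ∈ (insert a T).powerset, φ (gs (insert a T) d F) =
      ∑ F ∈ T.powerset, (φ (gs T d F + d a) + φ (gs T d F - d a)) := by
  rw [Finset.sum_powerset_insert ha, Finset.sum_add_distrib]
  congr 1
  · refine Finset.sum_congr rfl fun F hF => ?_
    rw [gs_insert ha d (Finset.mem_powerset.1 hF)]
  · refine Finset.sum_congr rfl fun F _ => ?_
    rw [gs_insert' ha d F]

theorem sum_sq (T : Finset X) (d : X → ℤ) :
    ∑ F ∈ T.powerset, (gs T d F) ^ 2 = 2 ^ T.card * ∑ x ∈ T, d x ^ 2 := by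
  induction T using Finset.induction_on with
  | empty => simp [gs]
  | insert a T ha ih =>
    rw [sum_insert_powerset ha d (fun z => z ^ 2), Finset.card_insert_of_notMem ha,
      Finset.sum_insert ha]
    have h1 : ∀ F ∈ T.powerset, (gs T d F + d a) ^ 2 + (gs T d F - d a) ^ 2 =
        2 * (gs T d F) ^ 2 + 2 * d a ^ 2 := fun F _ => by ring
    rw [Finset.sum_congr rfl h1, Finset.sum_add_distrib, ← Finset.mul_sum, ih, Finset.sum_const,
      Finset.card_powerset, nsmul_eq_mul]
    push_cast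
    ring

theorem sum_fourth (T : Finset X) (d : X → ℤ) :
    ∑ F ∈ T.powerset, (gs T d F) ^ 4 ≤ 2 ^ T.card * (3 * (∑ x ∈ T, d x ^ 2) ^ 2) := by
  induction T using Finset.induction_on with
  | empty => simp [gs]
  | insert a T ha ih =>
    rw [sum_insert_powerset ha d (fun z => z ^ 4), Finset.card_insert_of_notMem ha,
      Finset.sum_insert ha]
    have h1 : ∀ F ∈ T.powerset, (gs T d F + d a) ^ 4 + (gs T d F - d a) ^ 4 =
        2 * (gs T d F) ^ 4 + 12 * d a ^ 2 * (gs T d F) ^ 2 + 2 * d a ^ 4 := fun F _ => by ring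
    rw [Finset.sum_congr rfl h1, Finset.sum_add_distrib, Finset.sum_add_distrib,
      ← Finset.mul_sum, ← Finset.mul_sum, sum_sq, Finset.sum_const, Finset.card_powerset,
      nsmul_eq_mul]
    push_cast
    set V := ∑ x ∈ T, d x ^ 2
    have h2 : (0 : ℤ) ≤ 2 ^ T.card * d a ^ 4 := by positivity
    calc 2 * ∑ F ∈ T.powerset, gs T d F ^ 4 + 12 * d a ^ 2 * (2 ^ T.card * V) +
          2 ^ T.card * (2 * d a ^ 4)
        ≤ 2 * (2 ^ T.card * (3 * V ^ 2)) + 12 * d a ^ 2 * (2 ^ T.card * V) +
          2 ^ T.card * (2 * d a ^ 4) := by linarith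
      _ = 2 ^ (T.card + 1) * (3 * (d a ^ 2 + V) ^ 2) - 4 * (2 ^ T.card * d a ^ 4) := by
          rw [pow_succ]
          ring
      _ ≤ 2 ^ (T.card + 1) * (3 * (d a ^ 2 + V) ^ 2) := by linarith

/-- symmetry -/
theorem gs_compl (T : Finset X) (d : X → ℤ) (F : Finset X) : gs T d (T \ F) = - gs T d F := by
  unfold gs
  rw [← Finset.sum_neg_distrib]
  refine Finset.sum_congr rfl fun x hx => ?_
  by_cases h : x ∈ F
  · rw [if_pos h, if_neg (by rw [Finset.mem_sdiff]; tauto), neg_neg]
  · rw [if_neg h, if_pos (by rw [Finset.mem_sdiff]; tauto)]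

/-- half of the subsets have a given weak sign -/
theorem half_nonneg (T : Finset X) (d : X → ℤ) (s : ℤ) (P : ℤ → Prop) [DecidablePred P]
    (hP : ∀ z, P (-z) ↔ P z) :
    (T.powerset.filter (fun F => P (gs T d F))).card ≤
      2 * (T.powerset.filter (fun F => P (gs T d F) ∧ 0 ≤ s * gs T d F)).card := by
  classical
  have h1 : T.powerset.filter (fun F => P (gs T d F)) ⊆
      (T.powerset.filter (fun F => P (gs T d F) ∧ 0 ≤ s * gs T d F)) ∪
        (T.powerset.filter (fun F => P (gs T d F) ∧ 0 ≤ s * gs T d F)).image (fun F => T \ F) := by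
    intro F hF
    rw [Finset.mem_filter, Finset.mem_powerset] at hF
    rw [Finset.mem_union, Finset.mem_image]
    by_cases h : 0 ≤ s * gs T d F
    · left
      rw [Finset.mem_filter, Finset.mem_powerset]
      exact ⟨hF.1, hF.2, h⟩
    · right
      refine ⟨T \ F, ?_, ?_⟩
      · rw [Finset.mem_filter, Finset.mem_powerset, gs_compl]
        refine ⟨Finset.sdiff_subset, (hP _).2 hF.2, ?_⟩
        have h2 : s * -gs T d F = -(s * gs T d F) := by ring
        rw [h2]
        linarith
      · exact Finset.sdiff_sdiff_eq_self hF.1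
  refine (Finset.card_le_card h1).trans ((Finset.card_union_le _ _).trans ?_)
  have h2 := Finset.card_image_le (s := T.powerset.filter (fun F => P (gs T d F) ∧
    0 ≤ s * gs T d F)) (f := fun F => T \ F)
  omega

theorem abs_add_ge {A z : ℤ} (h : 0 ≤ (if 0 ≤ A then 1 else -1) * z) : |z| ≤ |A + z| := by
  by_cases hA : 0 ≤ A
  · rw [if_pos hA, one_mul] at h
    rw [abs_of_nonneg h, abs_of_nonneg (by omega)]
    omega
  · rw [if_neg hA] at h
    rw [abs_of_nonpos (by omega), abs_of_nonpos (by omega)]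
    omega

/-- Large values by the fourth moment. -/
theorem card_small_le (T : Finset X) (d : X → ℤ) (A : ℤ) (B : ℕ)
    (hV : 4 * (B : ℤ) ^ 2 ≤ ∑ x ∈ T, d x ^ 2) (hV0 : 0 < ∑ x ∈ T, d x ^ 2) :
    32 * (T.powerset.filter (fun F => |A + gs T d F| ≤ B)).card ≤ 29 * 2 ^ T.card := by
  classical
  set V := ∑ x ∈ T, d x ^ 2 with hVdef
  set P : ℤ → Prop := fun z => V < 4 * z ^ 2 with hP
  have hPdec : DecidablePred P := fun z => inferInstanceAs (Decidable (V < 4 * z ^ 2))
  set M := (T.powerset.filter (fun F => P (gs T d F))).card with hM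
  -- Cauchy-Schwarz
  have h1 : 3 * (2 ^ T.card * V) ≤ 4 * ∑ F ∈ T.powerset.filter (fun F => P (gs T d F)), (gs T d F) ^ 2 := by
    have h2 : ∑ F ∈ T.powerset, (gs T d F) ^ 2 =
        ∑ F ∈ T.powerset.filter (fun F => P (gs T d F)), (gs T d F) ^ 2 +
        ∑ F ∈ T.powerset.filter (fun F => ¬ P (gs T d F)), (gs T d F) ^ 2 :=
      (Finset.sum_filter_add_sum_filter_not _ _ _).symm
    have h3 : 4 * ∑ F ∈ T.powerset.filter (fun F => ¬ P (gs T d F)), (gs T d F) ^ 2 ≤
        2 ^ T.card * V := by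
      rw [Finset.mul_sum]
      calc ∑ F ∈ T.powerset.filter (fun F => ¬ P (gs T d F)), 4 * (gs T d F) ^ 2
          ≤ ∑ F ∈ T.powerset.filter (fun F => ¬ P (gs T d F)), V := by
            refine Finset.sum_le_sum fun F hF => ?_
            have h4 := (Finset.mem_filter.1 hF).2
            simp only [hP, not_lt] at h4
            exact h4
        _ = ((T.powerset.filter (fun F => ¬ P (gs T d F))).card : ℤ) * V := by
            rw [Finset.sum_const, nsmul_eq_mul]
        _ ≤ 2 ^ T.card * V := by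
            refine mul_le_mul_of_nonneg_right ?_ hV0.le
            have h5 := Finset.card_le_card (Finset.filter_subset (fun F => ¬ P (gs T d F)) T.powerset)
            rw [Finset.card_powerset] at h5
            exact_mod_cast h5
    have h4 := sum_sq T d
    rw [h2] at h4
    linarith
  have h5 : (∑ F ∈ T.powerset.filter (fun F => P (gs T d F)), (gs T d F) ^ 2) ^ 2 ≤
      (M : ℤ) * ∑ F ∈ T.powerset.filter (fun F => P (gs T d F)), ((gs T d F) ^ 2) ^ 2 :=
    sq_sum_le_card_mul_sum_sq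
  have h6 : ∑ F ∈ T.powerset.filter (fun F => P (gs T d F)), ((gs T d F) ^ 2) ^ 2 ≤
      2 ^ T.card * (3 * V ^ 2) := by
    refine le_trans (Finset.sum_le_sum_of_subset_of_nonneg (Finset.filter_subset _ _)
      (fun F _ _ => by positivity)) ?_
    refine le_trans (le_of_eq ?_) (sum_fourth T d)
    exact Finset.sum_congr rfl fun F _ => by ring
  have h7 : 3 * 2 ^ T.card ≤ 16 * M := by
    set Q := ∑ F ∈ T.powerset.filter (fun F => P (gs T d F)), (gs T d F) ^ 2
    have h8 : Q ^ 2 ≤ (M : ℤ) * (2 ^ T.card * (3 * V ^ 2)) :=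
      h5.trans (mul_le_mul_of_nonneg_left h6 (Int.natCast_nonneg _))
    have hp : (0 : ℤ) < 2 ^ T.card := by positivity
    have h9 : (3 * (2 ^ T.card * V)) ^ 2 ≤ (4 * Q) ^ 2 :=
      pow_le_pow_left₀ (by positivity) h1 2
    have h10 : 9 * (2 ^ T.card * 2 ^ T.card * V ^ 2) ≤
        16 * ((M : ℤ) * (2 ^ T.card * (3 * V ^ 2))) := by
      calc 9 * (2 ^ T.card * 2 ^ T.card * V ^ 2) = (3 * (2 ^ T.card * V)) ^ 2 := by ring
        _ ≤ (4 * Q) ^ 2 := h9
        _ = 16 * Q ^ 2 := by ring
        _ ≤ 16 * ((M : ℤ) * (2 ^ T.card * (3 * V ^ 2))) := by linarith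
    have h11 : (3 * 2 ^ T.card) * (3 * 2 ^ T.card * V ^ 2) ≤ (16 * (M : ℤ)) * (3 * 2 ^ T.card * V ^ 2) := by
      calc (3 * 2 ^ T.card) * (3 * 2 ^ T.card * V ^ 2) = 9 * (2 ^ T.card * 2 ^ T.card * V ^ 2) := by ring
        _ ≤ 16 * ((M : ℤ) * (2 ^ T.card * (3 * V ^ 2))) := h10
        _ = (16 * (M : ℤ)) * (3 * 2 ^ T.card * V ^ 2) := by ring
    have h12 : (3 * 2 ^ T.card : ℤ) ≤ 16 * (M : ℤ) :=
      le_of_mul_le_mul_right h11 (by positivity)
    exact_mod_cast h12
  -- choose the sign
  set s : ℤ := if 0 ≤ A then 1 else -1 with hs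
  have h13 := half_nonneg T d s P (fun z => by simp only [hP, neg_sq])
  set Good := T.powerset.filter (fun F => P (gs T d F) ∧ 0 ≤ s * gs T d F) with hGood
  have h14 : (T.powerset.filter (fun F => |A + gs T d F| ≤ B)).card + Good.card ≤ 2 ^ T.card := by
    rw [← Finset.card_union_of_disjoint]
    · refine (Finset.card_le_card ?_).trans (le_of_eq (Finset.card_powerset T))
      exact Finset.union_subset (Finset.filter_subset _ _) (Finset.filter_subset _ _)
    · rw [Finset.disjoint_left]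
      intro F hF1 hF2
      have h15 := (Finset.mem_filter.1 hF1).2
      obtain ⟨h16, h17⟩ := (Finset.mem_filter.1 hF2).2
      have h18 := abs_add_ge h17
      have h19 : |gs T d F| ≤ B := h18.trans h15
      have h20 : (gs T d F) ^ 2 ≤ (B : ℤ) ^ 2 := by
        rw [← sq_abs]
        exact pow_le_pow_left₀ (abs_nonneg _) h19 2
      simp only [hP] at h16
      linarith
  omega

/-- Large values by an alignment of few signs. -/
theorem card_small_le' (T : Finset X) (d : X → ℤ) (hd : ∀ x ∈ T, d x ≠ 0) (A : ℤ) (B : ℕ)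
    (hW : (B : ℤ) + 1 ≤ ∑ x ∈ T, |d x|) :
    2 ^ (B + 2) * (T.powerset.filter (fun F => |A + gs T d F| ≤ B)).card ≤
      (2 ^ (B + 2) - 1) * 2 ^ T.card := by
  classical
  -- a small subset of large weight
  obtain ⟨T₁, hT₁, hT₁c, hT₁w⟩ : ∃ T₁ ⊆ T, T₁.card ≤ B + 1 ∧ (B : ℤ) + 1 ≤ ∑ x ∈ T₁, |d x| := by
    by_cases h : T.card ≤ B + 1
    · exact ⟨T, Finset.Subset.refl _, h, hW⟩
    · obtain ⟨T₁, hT₁, hc⟩ := Finset.exists_subset_card_eq (s := T) (n := B + 1) (by omega)
      refine ⟨T₁, hT₁, hc.le, ?_⟩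
      have h1 : ∑ x ∈ T₁, (1 : ℤ) ≤ ∑ x ∈ T₁, |d x| :=
        Finset.sum_le_sum fun x hx => Int.one_le_abs (hd x (hT₁ hx))
      rw [Finset.sum_const, hc, nsmul_eq_mul, mul_one] at h1
      exact_mod_cast h1
  set T₂ := T \ T₁ with hT₂
  set s : ℤ := if 0 ≤ A then 1 else -1 with hs
  have hs2 : s * s = 1 := by
    rw [hs]
    split_ifs <;> norm_num
  -- the aligned set
  set F₁ := T₁.filter (fun x => s * d x < 0) with hF₁
  set 𝒢 := T₂.powerset.filter (fun F => 0 ≤ s * gs T₂ d F) with h𝒢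
  have h1 : 2 ^ T₂.card ≤ 2 * 𝒢.card := by
    have h2 := half_nonneg T₂ d s (fun _ => True) (fun _ => Iff.rfl)
    simp only [true_and, Finset.filter_true, Finset.card_powerset] at h2
    exact h2
  have hsplit : ∀ F ∈ 𝒢, gs T d (F₁ ∪ F) = gs T₁ d F₁ + gs T₂ d F := by
    intro F hF
    have hF' := Finset.mem_powerset.1 (Finset.mem_filter.1 hF).1
    unfold gs
    rw [← Finset.sum_sdiff hT₁, ← hT₂, add_comm]
    congr 1
    · refine Finset.sum_congr rfl fun x hx => ?_
      have hxF : x ∉ F := fun h => (Finset.mem_sdiff.1 (hF' h)).2 hx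
      by_cases h : x ∈ F₁
      · rw [if_pos h, if_pos (Finset.mem_union_left _ h)]
      · rw [if_neg h, if_neg]
        rw [Finset.mem_union]
        tauto
    · refine Finset.sum_congr rfl fun x hx => ?_
      have hxF₁ : x ∉ F₁ := fun h => (Finset.mem_sdiff.1 hx).2 (Finset.mem_filter.1 h).1
      by_cases h : x ∈ F
      · rw [if_pos h, if_pos (Finset.mem_union_right _ h)]
      · rw [if_neg h, if_neg]
        rw [Finset.mem_union]
        tauto
  have halign : s * gs T₁ d F₁ = ∑ x ∈ T₁, |d x| := by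
    unfold gs
    rw [Finset.mul_sum]
    refine Finset.sum_congr rfl fun x hx => ?_
    have hss : s = 1 ∨ s = -1 := by
      rw [hs]
      split_ifs
      · exact Or.inl rfl
      · exact Or.inr rfl
    by_cases h : s * d x < 0
    · rw [if_pos (Finset.mem_filter.2 ⟨hx, h⟩)]
      rcases hss with h1 | h1
      · rw [h1, one_mul] at h
        rw [h1, one_mul, abs_of_neg h]
      · rw [h1] at h
        rw [h1, abs_of_pos (by omega)]
        ring
    · have hxF : x ∉ F₁ := fun h2 => h (Finset.mem_filter.1 h2).2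
      rw [if_neg hxF]
      rcases hss with h1 | h1
      · rw [h1, one_mul] at h
        rw [h1, one_mul, abs_of_nonneg (by omega)]
      · rw [h1] at h
        rw [h1, abs_of_nonpos (by omega)]
        ring
  have hlarge : ∀ F ∈ 𝒢, ¬ |A + gs T d (F₁ ∪ F)| ≤ B := by
    intro F hF hcon
    have h2 := (Finset.mem_filter.1 hF).2
    have h3 := hsplit F hF
    have h4 : 0 ≤ s * gs T d (F₁ ∪ F) := by
      rw [h3, mul_add, halign]
      have : (0 : ℤ) ≤ ∑ x ∈ T₁, |d x| := Finset.sum_nonneg fun _ _ => abs_nonneg _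
      linarith
    have h5 := abs_add_ge h4
    have h6 : (B : ℤ) + 1 ≤ |gs T d (F₁ ∪ F)| := by
      have h7 : s * gs T d (F₁ ∪ F) ≤ |gs T d (F₁ ∪ F)| := by
        have hss : s = 1 ∨ s = -1 := by
          rw [hs]
          split_ifs
          · exact Or.inl rfl
          · exact Or.inr rfl
        rcases hss with h1 | h1
        · rw [h1, one_mul]
          exact le_abs_self _
        · rw [h1, neg_one_mul]
          exact neg_le_abs _
      rw [h3, mul_add, halign, ← h3] at h7
      linarith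
    linarith
  have hcard : 𝒢.card ≤ (T.powerset.filter (fun F => ¬ |A + gs T d F| ≤ B)).card := by
    refine Finset.card_le_card_of_injOn (fun F => F₁ ∪ F) ?_ ?_
    · intro F hF
      rw [Finset.mem_coe] at hF
      rw [Finset.mem_coe, Finset.mem_filter, Finset.mem_powerset]
      have hF' := Finset.mem_powerset.1 (Finset.mem_filter.1 hF).1
      refine ⟨Finset.union_subset ((Finset.filter_subset _ _).trans hT₁)
        (hF'.trans Finset.sdiff_subset), hlarge F hF⟩
    · intro F hF F' hF' h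
      rw [Finset.mem_coe] at hF hF'
      have hF1 := Finset.mem_powerset.1 (Finset.mem_filter.1 hF).1
      have hF2 := Finset.mem_powerset.1 (Finset.mem_filter.1 hF').1
      have hdis : ∀ G : Finset X, G ⊆ T₂ → (F₁ ∪ G) \ T₁ = G := by
        intro G hG
        ext x
        rw [Finset.mem_sdiff, Finset.mem_union]
        constructor
        · rintro ⟨h1 | h1, h2⟩
          · exact absurd (Finset.mem_filter.1 h1).1 h2
          · exact h1
        · intro h1
          exact ⟨Or.inr h1, (Finset.mem_sdiff.1 (hG h1)).2⟩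
      rw [← hdis F hF1, ← hdis F' hF2]
      simp only at h
      rw [h]
  have htot : (T.powerset.filter (fun F => |A + gs T d F| ≤ B)).card +
      (T.powerset.filter (fun F => ¬ |A + gs T d F| ≤ B)).card = 2 ^ T.card := by
    rw [Finset.card_filter_add_card_filter_not, Finset.card_powerset]
  have hT₂c : T₂.card + T₁.card = T.card := by
    rw [hT₂]
    exact Finset.card_sdiff_add_card_eq_card hT₁
  have hpow : 2 ^ T.card ≤ 2 ^ (B + 2) * 𝒢.card := by
    calc 2 ^ T.card = 2 ^ T₂.card * 2 ^ T₁.card := by rw [← hT₂c, pow_add]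
      _ ≤ (2 * 𝒢.card) * 2 ^ (B + 1) :=
          Nat.mul_le_mul h1 (Nat.pow_le_pow_right (by norm_num) hT₁c)
      _ = 2 ^ (B + 2) * 𝒢.card := by ring
  obtain ⟨q, hq⟩ : ∃ q, 2 ^ (B + 2) = q + 1 := ⟨2 ^ (B + 2) - 1, by
    have : 1 ≤ 2 ^ (B + 2) := Nat.one_le_two_pow
    omega⟩
  rw [hq] at hpow ⊢
  rw [Nat.add_sub_cancel]
  set m := (T.powerset.filter (fun F => |A + gs T d F| ≤ B)).card
  set m' := (T.powerset.filter (fun F => ¬ |A + gs T d F| ≤ B)).card
  have h8 : (q + 1) * 𝒢.card ≤ (q + 1) * m' := Nat.mul_le_mul_left _ hcard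
  rw [← htot] at hpow ⊢
  nlinarith

end Pool.Agent.TH170.LV
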