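import Mathlib
import Pool.Agent.TH170.LV.Prob
import Pool.Agent.TH170.GH.Greedy
import Pool.Agent.W548.Sh.Swap

/-!
# Half systems for which all translates of a word have small sums of signs
-/

namespace Pool.Agent.TH170.LV

open Finset Pool.Agent.W548.Sh

variable {X : Type*} [Fintype X] [DecidableEq X]
variable {G : Type*} [Group G] [MulAction G X] {κ : Type*} [Fintype κ]

/-- The half systems for which the sums of the signs of some translates of a word are at most
`B`. -/
noncomputable def BadL (inv : X → X) (a : κ → X) (B : ℕ) (𝒮 : Finset G) : Finset (Finset X) :=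
  @Finset.filter _ (fun S => ∀ σ ∈ 𝒮, |∑ l, sgn S (σ • a l)| ≤ B) (Classical.decPred _) (Halves inv)

theorem mem_BadL {inv : X → X} {a : κ → X} {B : ℕ} {𝒮 : Finset G} {S : Finset X} :
    S ∈ BadL inv a B 𝒮 ↔ S ∈ Halves inv ∧ ∀ σ ∈ 𝒮, |∑ l, sgn S (σ • a l)| ≤ B :=
  @Finset.mem_filter _ _ (Classical.decPred _) _ _

/-- One more translate. -/
theorem card_BadL_insert {inv : X → X} (hinv : ∀ x, inv (inv x) = x)
    (hcomm : ∀ (g : G) (x : X), inv (g • x) = g • inv x) {R : Finset X}
    (hR : R ∈ Halves inv) (a : κ → X) (B : ℕ) [DecidableEq G] (𝒮 : Finset G) (τ : G)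
    (T : Finset X) (hT : T ⊆ R) (h0 : ∀ σ ∈ 𝒮, ∀ x ∈ T, coef inv a σ x = 0) (c₁ c₂ : ℕ)
    (hc : ∀ (e : X → ℤ), (∀ x, e x = 1 ∨ e x = -1) → ∀ A : ℤ,
      c₂ * (T.powerset.filter (fun F => |A + gs T (fun x => e x * coef inv a τ x) F| ≤ B)).card ≤
        c₁ * 2 ^ T.card) :
    c₂ * (BadL inv a B (insert τ 𝒮)).card ≤ c₁ * (BadL inv a B 𝒮).card := by
  classical
  have hle : ∀ F ∈ T.powerset, (BadL inv a B (insert τ 𝒮)).card ≤
      ((BadL inv a B 𝒮).filter (fun S => flips inv F S ∈ BadL inv a B (insert τ 𝒮))).card := by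
    intro F hF
    rw [Finset.mem_powerset] at hF
    refine Finset.card_le_card_of_injOn (flips inv F) ?_ (flips_injective inv F).injOn
    intro S hS
    rw [Finset.mem_coe, mem_BadL] at hS
    rw [Finset.mem_coe, Finset.mem_filter, flips_flips, mem_BadL, mem_BadL]
    refine ⟨⟨flips_mem hinv F hS.1, fun σ hσ => ?_⟩, hS⟩
    have hz : ∑ x ∈ F, 2 * sgn S x * coef inv a σ x = 0 :=
      Finset.sum_eq_zero fun x hx => by rw [h0 σ hσ x (hF hx), mul_zero]
    rw [sum_flips hinv hcomm hR a σ hS.1 (hF.trans hT), hz, sub_zero]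
    exact hS.2 σ (Finset.mem_insert_of_mem hσ)
  have hdouble : 2 ^ T.card * (c₂ * (BadL inv a B (insert τ 𝒮)).card) ≤
      2 ^ T.card * (c₁ * (BadL inv a B 𝒮).card) := by
    calc 2 ^ T.card * (c₂ * (BadL inv a B (insert τ 𝒮)).card) =
          c₂ * ∑ F ∈ T.powerset, (BadL inv a B (insert τ 𝒮)).card := by
          rw [Finset.sum_const, Finset.card_powerset, smul_eq_mul]
          ring
      _ ≤ c₂ * ∑ F ∈ T.powerset,
          ((BadL inv a B 𝒮).filter (fun S => flips inv F S ∈ BadL inv a B (insert τ 𝒮))).card :=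
          Nat.mul_le_mul_left _ (Finset.sum_le_sum hle)
      _ = c₂ * ∑ F ∈ T.powerset, ∑ S ∈ BadL inv a B 𝒮,
          (if flips inv F S ∈ BadL inv a B (insert τ 𝒮) then 1 else 0) := by
          congr 1
          refine Finset.sum_congr rfl fun F _ => ?_
          rw [Finset.card_filter]
      _ = ∑ S ∈ BadL inv a B 𝒮, c₂ * ∑ F ∈ T.powerset,
          (if flips inv F S ∈ BadL inv a B (insert τ 𝒮) then 1 else 0) := by
          rw [Finset.sum_comm, Finset.mul_sum]
      _ ≤ ∑ S ∈ BadL inv a B 𝒮, c₁ * 2 ^ T.card := by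
          refine Finset.sum_le_sum fun S hS => ?_
          rw [← Finset.card_filter]
          rw [mem_BadL] at hS
          have hsg : ∀ x, sgn S x = 1 ∨ sgn S x = -1 := by
            intro x
            unfold sgn
            split_ifs
            · exact Or.inl rfl
            · exact Or.inr rfl
          refine le_trans (Nat.mul_le_mul_left _ (Finset.card_le_card ?_))
            (hc (sgn S) hsg (∑ l, sgn S (τ • a l) - ∑ x ∈ T, sgn S x * coef inv a τ x))
          intro F hF
          rw [Finset.mem_filter] at hF ⊢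
          refine ⟨hF.1, ?_⟩
          have hFT := Finset.mem_powerset.1 hF.1
          have h3 := (mem_BadL.1 hF.2).2 τ (Finset.mem_insert_self _ _)
          rw [sum_flips hinv hcomm hR a τ hS.1 (hFT.trans hT)] at h3
          have h4 : gs T (fun x => sgn S x * coef inv a τ x) F =
              ∑ x ∈ T, sgn S x * coef inv a τ x - ∑ x ∈ F, 2 * sgn S x * coef inv a τ x := by
            have h5 : ∑ x ∈ F, 2 * sgn S x * coef inv a τ x =
                ∑ x ∈ T, (if x ∈ F then 2 * sgn S x * coef inv a τ x else 0) := by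
              rw [← Finset.sum_filter]
              congr 1
              ext x
              rw [Finset.mem_filter]
              exact ⟨fun h => ⟨hFT h, h⟩, fun h => h.2⟩
            unfold gs
            rw [h5, ← Finset.sum_sub_distrib]
            refine Finset.sum_congr rfl fun x _ => ?_
            split_ifs <;> ring
          rw [h4]
          have h6 : ∑ l, sgn S (τ • a l) - ∑ x ∈ T, sgn S x * coef inv a τ x +
              (∑ x ∈ T, sgn S x * coef inv a τ x - ∑ x ∈ F, 2 * sgn S x * coef inv a τ x) =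
              ∑ l, sgn S (τ • a l) - ∑ x ∈ F, 2 * sgn S x * coef inv a τ x := by ring
          rw [h6]
          exact h3
      _ = 2 ^ T.card * (c₁ * (BadL inv a B 𝒮).card) := by
          rw [Finset.sum_const, smul_eq_mul]
          ring
  exact Nat.le_of_mul_le_mul_left hdouble (by positivity)

omit [Fintype X] in
/-- A translate of a word meets a small set in few letters. -/
theorem exists_translate [Fintype G] (a : κ → X) (U : Finset X) {g₀ w : ℕ}
    (horb : ∀ x : X, 2 * g₀ ≤ (MulAction.orbit G x).ncard) (hw : w ≤ Fintype.card κ)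
    (h : Fintype.card κ * U.card < 2 * g₀ * (Fintype.card κ - w + 1)) [Fintype X] :
    ∃ τ : G, w ≤ (univ.filter (fun l => τ • a l ∉ U)).card := by
  classical
  by_contra hcon
  push Not at hcon
  have h1 : ∀ τ : G, Fintype.card κ - w + 1 ≤ (univ.filter (fun l => τ • a l ∈ U)).card := by
    intro τ
    have h2 : (univ.filter (fun l => τ • a l ∈ U)).card +
        (univ.filter (fun l => ¬ τ • a l ∈ U)).card = (univ : Finset κ).card :=
      Finset.card_filter_add_card_filter_not _
    rw [Finset.card_univ] at h2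
    have h3 := hcon τ
    omega
  have h2 : ∑ τ : G, (univ.filter (fun l => τ • a l ∈ U)).card =
      ∑ l, ∑ y ∈ U, (univ.filter (fun τ : G => τ • a l = y)).card := by
    have h3 : ∀ τ : G, (univ.filter (fun l => τ • a l ∈ U)).card =
        ∑ l, ∑ y ∈ U, (if τ • a l = y then 1 else 0) := by
      intro τ
      rw [Finset.card_filter]
      refine Finset.sum_congr rfl fun l _ => ?_
      rw [Finset.sum_ite_eq]
    rw [Finset.sum_congr rfl (fun τ _ => h3 τ), Finset.sum_comm]
    refine Finset.sum_congr rfl fun l _ => ?_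
    rw [Finset.sum_comm]
    refine Finset.sum_congr rfl fun y _ => ?_
    rw [Finset.card_filter]
  have h3 : Fintype.card G * (Fintype.card κ - w + 1) * (2 * g₀) ≤
      Fintype.card κ * U.card * Fintype.card G := by
    calc Fintype.card G * (Fintype.card κ - w + 1) * (2 * g₀)
        ≤ (∑ τ : G, (univ.filter (fun l => τ • a l ∈ U)).card) * (2 * g₀) := by
          refine Nat.mul_le_mul_right _ ?_
          have h4 : ∑ _τ : G, (Fintype.card κ - w + 1) ≤
              ∑ τ : G, (univ.filter (fun l => τ • a l ∈ U)).card :=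
            Finset.sum_le_sum fun τ _ => h1 τ
          rw [Finset.sum_const, Finset.card_univ, smul_eq_mul] at h4
          exact h4
      _ = ∑ l, ∑ y ∈ U, (univ.filter (fun τ : G => τ • a l = y)).card * (2 * g₀) := by
          rw [h2, Finset.sum_mul]
          refine Finset.sum_congr rfl fun l _ => ?_
          rw [Finset.sum_mul]
      _ ≤ ∑ _l : κ, ∑ _y ∈ U, Fintype.card G :=
          Finset.sum_le_sum fun l _ => Finset.sum_le_sum fun y _ =>
            Pool.Agent.TH170.GH.card_smul_eq_le (a l) y (horb (a l))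
      _ = Fintype.card κ * U.card * Fintype.card G := by
          rw [Finset.sum_const, Finset.sum_const, smul_eq_mul, smul_eq_mul, Finset.card_univ]
          ring
  have hG : 0 < Fintype.card G := Fintype.card_pos
  have h4 : Fintype.card κ * U.card * Fintype.card G <
      2 * g₀ * (Fintype.card κ - w + 1) * Fintype.card G := Nat.mul_lt_mul_of_pos_right h hG
  have h5 : Fintype.card G * (Fintype.card κ - w + 1) * (2 * g₀) =
      2 * g₀ * (Fintype.card κ - w + 1) * Fintype.card G := by ring
  omega

/-- The new letters of a word carry a large weight. -/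
theorem weight_le {inv : X → X} (hinv : ∀ x, inv (inv x) = x)
    (hcomm : ∀ (g : G) (x : X), inv (g • x) = g • inv x) {R : Finset X}
    (hR : R ∈ Halves inv) (a : κ → X) (hfree : ∀ l l', a l ≠ inv (a l')) (τ : G) (U : Finset X)
    (hU : ∀ x, inv x ∈ U ↔ x ∈ U) :
    ((univ.filter (fun l => τ • a l ∉ U)).card : ℤ) ≤
      ∑ x ∈ R.filter (fun x => x ∉ U ∧ coef inv a τ x ≠ 0), |coef inv a τ x| := by
  classical
  have hR' := mem_Halves.1 hR
  let xl : κ → X := fun l => if τ • a l ∈ R then τ • a l else inv (τ • a l)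
  have hxl : ∀ l, xl l ∈ R := by
    intro l
    by_cases h : τ • a l ∈ R
    · simp only [xl, if_pos h]
      exact h
    · simp only [xl, if_neg h]
      by_contra h2
      exact h ((hR' _).2 h2)
  have hxU : ∀ l, xl l ∈ U ↔ τ • a l ∈ U := by
    intro l
    by_cases h : τ • a l ∈ R
    · simp only [xl, if_pos h]
    · simp only [xl, if_neg h, hU]
  have hcoef : ∀ x ∈ R, ((univ.filter (fun l => xl l = x)).card : ℤ) ≤ |coef inv a τ x| := by
    intro x hx
    have h1 : ((univ.filter (fun l => xl l = x)).card : ℤ) ≤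
        cnt a (τ⁻¹ • x) + cnt a (inv (τ⁻¹ • x)) := by
      unfold cnt
      have h2 : univ.filter (fun l => xl l = x) ⊆ univ.filter (fun l => a l = τ⁻¹ • x) ∪
          univ.filter (fun l => a l = inv (τ⁻¹ • x)) := by
        intro l hl
        rw [Finset.mem_filter] at hl
        rw [Finset.mem_union, Finset.mem_filter, Finset.mem_filter]
        by_cases h : τ • a l ∈ R
        · left
          have h3 : τ • a l = x := by
            have := hl.2
            simp only [xl, if_pos h] at this
            exact this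
          exact ⟨Finset.mem_univ _, by rw [← h3, inv_smul_smul]⟩
        · right
          have h3 : inv (τ • a l) = x := by
            have := hl.2
            simp only [xl, if_neg h] at this
            exact this
          exact ⟨Finset.mem_univ _, by rw [hcomm, ← h3, hinv, inv_smul_smul]⟩
      have h3 := (Finset.card_le_card h2).trans (Finset.card_union_le _ _)
      exact_mod_cast h3
    have h4 : cnt a (τ⁻¹ • x) = 0 ∨ cnt a (inv (τ⁻¹ • x)) = 0 := by
      by_contra hcon
      push Not at hcon
      unfold cnt at hcon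
      have h5 : (univ.filter (fun l => a l = τ⁻¹ • x)).card ≠ 0 := by exact_mod_cast hcon.1
      have h6 : (univ.filter (fun l => a l = inv (τ⁻¹ • x))).card ≠ 0 := by exact_mod_cast hcon.2
      obtain ⟨l, hl⟩ := Finset.card_pos.1 (Nat.pos_of_ne_zero h5)
      obtain ⟨l', hl'⟩ := Finset.card_pos.1 (Nat.pos_of_ne_zero h6)
      rw [Finset.mem_filter] at hl hl'
      apply hfree l' l
      rw [hl.2, hl'.2]
    have h5 : 0 ≤ cnt a (τ⁻¹ • x) := Int.natCast_nonneg _
    have h6 : 0 ≤ cnt a (inv (τ⁻¹ • x)) := Int.natCast_nonneg _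
    unfold coef
    rcases h4 with h4 | h4
    · rw [h4] at h1 ⊢
      rw [zero_sub, abs_neg, abs_of_nonneg h6]
      linarith
    · rw [h4] at h1 ⊢
      rw [sub_zero, abs_of_nonneg h5]
      linarith
  have h1 : ((univ.filter (fun l => τ • a l ∉ U)).card : ℤ) =
      ∑ x ∈ R.filter (fun x => x ∉ U), ((univ.filter (fun l => τ • a l ∉ U ∧ xl l = x)).card : ℤ) := by
    rw [Finset.card_eq_sum_card_fiberwise (f := xl) (t := R.filter (fun x => x ∉ U))]
    · push_cast
      refine Finset.sum_congr rfl fun x _ => ?_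
      rw [Finset.filter_filter]
    · intro l hl
      rw [Finset.mem_coe, Finset.mem_filter] at hl ⊢
      exact ⟨hxl l, fun h => hl.2 ((hxU l).1 h)⟩
  have h2 : ∑ x ∈ R.filter (fun x => x ∉ U),
      ((univ.filter (fun l => τ • a l ∉ U ∧ xl l = x)).card : ℤ) ≤
      ∑ x ∈ R.filter (fun x => x ∉ U), |coef inv a τ x| := by
    refine Finset.sum_le_sum fun x hx => ?_
    refine le_trans ?_ (hcoef x (Finset.mem_filter.1 hx).1)
    refine Nat.cast_le.2 (Finset.card_le_card ?_)
    intro l hl
    rw [Finset.mem_filter] at hl ⊢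
    exact ⟨hl.1, hl.2.2⟩
  have h3 : ∑ x ∈ R.filter (fun x => x ∉ U), |coef inv a τ x| =
      ∑ x ∈ R.filter (fun x => x ∉ U ∧ coef inv a τ x ≠ 0), |coef inv a τ x| := by
    rw [← Finset.filter_filter]
    symm
    refine Finset.sum_filter_of_ne fun x _ hx => ?_
    intro h
    rw [h, abs_zero] at hx
    exact hx rfl
  rw [h1, ← h3]
  exact h2

/-- The number of half systems for which the sums of the signs of all translates of a word are
small. -/
theorem card_BadL_le [Fintype G] [DecidableEq G] {inv : X → X} (hinv : ∀ x, inv (inv x) = x)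
    (hcomm : ∀ (g : G) (x : X), inv (g • x) = g • inv x) {R : Finset X}
    (hR : R ∈ Halves inv) (a : κ → X) (hfree : ∀ l l', a l ≠ inv (a l')) (B : ℕ) {g₀ w : ℕ}
    (horb : ∀ x : X, 2 * g₀ ≤ (MulAction.orbit G x).ncard) (hw : w ≤ Fintype.card κ)
    (c₁ c₂ : ℕ)
    (hc : ∀ (T : Finset X) (d : X → ℤ), (∀ x ∈ T, d x ≠ 0) → (w : ℤ) ≤ ∑ x ∈ T, |d x| → ∀ A : ℤ,
      c₂ * (T.powerset.filter (fun F => |A + gs T d F| ≤ B)).card ≤ c₁ * 2 ^ T.card)
    (t : ℕ) (ht : ∀ m < t, Fintype.card κ * Fintype.card κ * m < g₀ * (Fintype.card κ - w + 1)) :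
    ∃ 𝒮 : Finset G, c₂ ^ t * (BadL inv a B 𝒮).card ≤ c₁ ^ t * (Halves inv).card := by
  classical
  let supp : G → Finset X := fun σ => univ.filter (fun x => coef inv a σ x ≠ 0)
  have hsupp : ∀ σ x, x ∈ supp σ ↔ coef inv a σ x ≠ 0 := by
    intro σ x
    simp only [supp, Finset.mem_filter, Finset.mem_univ, true_and]
  have hsuppinv : ∀ σ x, inv x ∈ supp σ ↔ x ∈ supp σ := by
    intro σ x
    rw [hsupp, hsupp, coef_inv hinv hcomm, neg_ne_zero]
  have hsuppc : ∀ σ, (supp σ).card ≤ 2 * Fintype.card κ := by
    intro σ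
    have h1 : supp σ ⊆ (univ.image (fun l => σ • a l)) ∪ (univ.image (fun l => inv (σ • a l))) := by
      intro x hx
      rw [hsupp] at hx
      rw [Finset.mem_union, Finset.mem_image, Finset.mem_image]
      by_contra hcon
      push Not at hcon
      apply hx
      unfold coef cnt
      rw [Finset.filter_eq_empty_iff.2, Finset.filter_eq_empty_iff.2, Finset.card_empty,
        Nat.cast_zero, sub_zero]
      · intro l _ h
        apply hcon.2 l (Finset.mem_univ _)
        rw [h, ← hcomm, smul_inv_smul, hinv]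
      · intro l _ h
        apply hcon.1 l (Finset.mem_univ _)
        rw [h, smul_inv_smul]
    refine (Finset.card_le_card h1).trans ((Finset.card_union_le _ _).trans ?_)
    have h2 := Finset.card_image_le (s := (univ : Finset κ)) (f := fun l => σ • a l)
    have h3 := Finset.card_image_le (s := (univ : Finset κ)) (f := fun l => inv (σ • a l))
    rw [Finset.card_univ] at h2 h3
    omega
  have key : ∀ m ≤ t, ∃ 𝒮 : Finset G, 𝒮.card ≤ m ∧
      c₂ ^ m * (BadL inv a B 𝒮).card ≤ c₁ ^ m * (Halves inv).card := by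
    intro m
    induction m with
    | zero =>
      intro _
      refine ⟨∅, le_rfl, ?_⟩
      rw [pow_zero, pow_zero, one_mul, one_mul]
      exact Finset.card_le_card fun S hS => (mem_BadL.1 hS).1
    | succ m ih =>
      intro hm
      obtain ⟨𝒮, h𝒮, hbad⟩ := ih (by omega)
      let U : Finset X := 𝒮.biUnion supp
      have hUinv : ∀ x, inv x ∈ U ↔ x ∈ U := by
        intro x
        simp only [U, Finset.mem_biUnion, hsuppinv]
      have hUc : U.card ≤ m * (2 * Fintype.card κ) := by
        refine (Finset.card_biUnion_le_card_mul _ _ _ (fun σ _ => hsuppc σ)).trans ?_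
        exact Nat.mul_le_mul_right _ h𝒮
      obtain ⟨τ, hτ⟩ := exists_translate (G := G) a U horb hw (by
        have h1 := ht m (by omega)
        calc Fintype.card κ * U.card ≤ Fintype.card κ * (m * (2 * Fintype.card κ)) :=
              Nat.mul_le_mul_left _ hUc
          _ = 2 * (Fintype.card κ * Fintype.card κ * m) := by ring
          _ < 2 * (g₀ * (Fintype.card κ - w + 1)) := by omega
          _ = 2 * g₀ * (Fintype.card κ - w + 1) := by ring)
      have hwt := weight_le hinv hcomm hR a hfree τ U hUinv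
      set T : Finset X := R.filter (fun x => x ∉ U ∧ coef inv a τ x ≠ 0) with hT
      have hstep := card_BadL_insert hinv hcomm hR a B 𝒮 τ T (Finset.filter_subset _ _)
        (fun σ hσ x hx => by
          by_contra hne
          rw [hT, Finset.mem_filter] at hx
          apply hx.2.1
          simp only [U, Finset.mem_biUnion]
          exact ⟨σ, hσ, (hsupp σ x).2 hne⟩) c₁ c₂ (fun e he A => by
          refine hc T _ ?_ ?_ A
          · intro x hx
            rw [hT, Finset.mem_filter] at hx
            rcases he x with h | h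
            · rw [h, one_mul]
              exact hx.2.2
            · rw [h, neg_one_mul]
              exact neg_ne_zero.2 hx.2.2
          · have h1 : ∑ x ∈ T, |e x * coef inv a τ x| = ∑ x ∈ T, |coef inv a τ x| := by
              refine Finset.sum_congr rfl fun x _ => ?_
              rcases he x with h | h
              · rw [h, one_mul]
              · rw [h, neg_one_mul, abs_neg]
            rw [h1]
            refine le_trans ?_ hwt
            exact_mod_cast hτ)
      refine ⟨insert τ 𝒮, (Finset.card_insert_le _ _).trans (by omega), ?_⟩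
      calc c₂ ^ (m + 1) * (BadL inv a B (insert τ 𝒮)).card
          = c₂ ^ m * (c₂ * (BadL inv a B (insert τ 𝒮)).card) := by ring
        _ ≤ c₂ ^ m * (c₁ * (BadL inv a B 𝒮).card) := Nat.mul_le_mul_left _ hstep
        _ = c₁ * (c₂ ^ m * (BadL inv a B 𝒮).card) := by ring
        _ ≤ c₁ * (c₁ ^ m * (Halves inv).card) := Nat.mul_le_mul_left _ hbad
        _ = c₁ ^ (m + 1) * (Halves inv).card := by ring
  obtain ⟨𝒮, -, h⟩ := key t le_rfl
  exact ⟨𝒮, h⟩

end Pool.Agent.TH170.LV
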