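import Mathlib
import Pool.Agent.TH170.LV.Step

/-!
# Half systems for which some word has small sums of signs
-/

namespace Pool.Agent.TH170.LV

open Finset Pool.Agent.W548.Sh

variable {X : Type*} [Fintype X] [DecidableEq X]
variable {G : Type*} [Group G] [Fintype G] [DecidableEq G] [MulAction G X]

/-- Powers with real exponents. -/
theorem rpow_le_of_ceil {q y : ℝ} (hq0 : 0 < q) (hq1 : q ≤ 1) : q ^ (⌈y⌉₊) ≤ q ^ y := by
  rw [← Real.rpow_natCast]
  exact Real.rpow_le_rpow_of_exponent_ge hq0 hq1 (Nat.le_ceil _)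

theorem halves_nonempty_or {inv : X → X} (a : Finset (Finset X)) (ha : a ⊆ Halves inv) :
    a.card = 0 ∨ ∃ R, R ∈ Halves inv := by
  rcases a.eq_empty_or_nonempty with h | ⟨R, hR⟩
  · left
    rw [h, Finset.card_empty]
  · exact Or.inr ⟨R, ha hR⟩

omit [DecidableEq G] in
theorem badL_subset {inv : X → X} {κ : Type*} [Fintype κ] (a : κ → X) (B : ℕ) (𝒮 : Finset G) :
    BadL inv a B (univ : Finset G) ⊆ BadL inv a B 𝒮 := by
  intro S hS
  rw [mem_BadL] at hS ⊢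
  exact ⟨hS.1, fun σ _ => hS.2 σ (Finset.mem_univ _)⟩

theorem real_of_nat {c₁ c₂ t m M : ℕ} (hc₂ : 0 < c₂) (h : c₂ ^ t * m ≤ c₁ ^ t * M) :
    (m : ℝ) ≤ M * ((c₁ : ℝ) / c₂) ^ t := by
  have h1 : ((c₂ : ℝ)) ^ t * m ≤ (c₁ : ℝ) ^ t * M := by exact_mod_cast h
  have h2 : (0 : ℝ) < (c₂ : ℝ) ^ t := by
    have : (0 : ℝ) < c₂ := by exact_mod_cast hc₂
    positivity
  rw [div_pow, mul_div_assoc', le_div_iff₀ h2]
  linarith

/-- Short words. -/
theorem card_bad_short {inv : X → X} (hinv : ∀ x, inv (inv x) = x)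
    (hcomm : ∀ (g : G) (x : X), inv (g • x) = g • inv x) {n B : ℕ} (a : Fin n → X)
    (hfree : ∀ l l', a l ≠ inv (a l')) (hB : B + 2 ≤ n) {g₀ N L k : ℕ}
    (hN : Fintype.card X = 2 * N)
    (horb : ∀ x : X, 2 * g₀ ≤ (MulAction.orbit G x).ncard) (hBL : B ≤ L) (hnk : n ≤ k) :
    ((BadL inv a B (univ : Finset G)).card : ℝ) ≤
      2 ^ N * (1 - (1 / 2) ^ (L + 2)) ^ (2 * (g₀ : ℝ) / ((L + 2) * k)) := by
  have hq1 : (0 : ℝ) < (1 / 2) ^ (L + 2) := by positivity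
  have hq2 : ((1 : ℝ) / 2) ^ (L + 2) ≤ 1 / 4 := by
    calc ((1 : ℝ) / 2) ^ (L + 2) ≤ (1 / 2) ^ 2 :=
          pow_le_pow_of_le_one (by norm_num) (by norm_num) (by omega)
      _ = 1 / 4 := by norm_num
  have hpos : (0 : ℝ) ≤ 2 ^ N * (1 - (1 / 2) ^ (L + 2)) ^ (2 * (g₀ : ℝ) / ((L + 2) * k)) :=
    mul_nonneg (by positivity) (Real.rpow_nonneg (by linarith) _)
  rcases halves_nonempty_or (inv := inv) (BadL inv a B (univ : Finset G))
    (fun S hS => (mem_BadL.1 hS).1) with h0 | ⟨R, hR⟩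
  · rw [h0, Nat.cast_zero]
    exact hpos
  set y : ℝ := 2 * (g₀ : ℝ) / ((L + 2) * k) with hy
  have hkpos : (0 : ℝ) < (L + 2) * k := by
    have : 0 < k := by omega
    positivity
  obtain ⟨𝒮, h𝒮⟩ := card_BadL_le (G := G) hinv hcomm hR a hfree B (g₀ := g₀) (w := B + 1) horb
    (by rw [Fintype.card_fin]; omega) (2 ^ (B + 2) - 1) (2 ^ (B + 2))
    (fun T d hd hW A => card_small_le' T d hd A B (by exact_mod_cast hW)) ⌈y⌉₊ (by
      intro m hm
      rw [Fintype.card_fin]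
      have h1 : (m : ℝ) < y := Nat.lt_ceil.1 hm
      rw [hy, lt_div_iff₀ hkpos] at h1
      have h2 : m * ((L + 2) * k) < 2 * g₀ := by exact_mod_cast h1
      have h3 : m * ((B + 2) * n) < 2 * g₀ := by
        refine lt_of_le_of_lt (Nat.mul_le_mul_left _ (Nat.mul_le_mul (by omega) hnk)) h2
      obtain ⟨e, rfl⟩ := Nat.exists_eq_add_of_le hB
      have h4 : B + 2 + e - (B + 1) + 1 = e + 2 := by omega
      rw [h4]
      by_contra hcon
      push Not at hcon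
      have h5 : g₀ * (e + 2) * (B + 2) ≤ (B + 2 + e) * (B + 2 + e) * m * (B + 2) :=
        Nat.mul_le_mul_right _ hcon
      have h6 : (B + 2 + e) * (B + 2 + e) * m * (B + 2) = (B + 2 + e) * (m * ((B + 2) * (B + 2 + e))) := by
        ring
      have h7 : (B + 2 + e) * (m * ((B + 2) * (B + 2 + e))) < (B + 2 + e) * (2 * g₀) :=
        Nat.mul_lt_mul_of_pos_left h3 (by omega)
      have h8 : g₀ * (e + 2) * (B + 2) = (B + 2 + e) * (2 * g₀) + g₀ * (e * B) := by ring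
      rw [h6] at h5
      rw [h8] at h5
      omega)
  have h1 := real_of_nat (by positivity) h𝒮
  have h2 : ((((2 ^ (B + 2) - 1 : ℕ)) : ℝ) / ((2 ^ (B + 2) : ℕ) : ℝ)) = 1 - (1 / 2) ^ (B + 2) := by
    rw [Nat.cast_sub Nat.one_le_two_pow]
    push_cast
    rw [sub_div, div_self (by positivity), div_pow, one_pow]
  rw [h2] at h1
  have hBq : ((1 : ℝ) / 2) ^ (L + 2) ≤ (1 / 2) ^ (B + 2) :=
    pow_le_pow_of_le_one (by norm_num) (by norm_num) (by omega)
  have hBq2 : ((1 : ℝ) / 2) ^ (B + 2) ≤ 1 / 4 := by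
    calc ((1 : ℝ) / 2) ^ (B + 2) ≤ (1 / 2) ^ 2 :=
          pow_le_pow_of_le_one (by norm_num) (by norm_num) (by omega)
      _ = 1 / 4 := by norm_num
  calc ((BadL inv a B (univ : Finset G)).card : ℝ)
      ≤ ((BadL inv a B 𝒮).card : ℝ) := by
        exact_mod_cast Finset.card_le_card (badL_subset a B 𝒮)
    _ ≤ (Halves inv).card * (1 - (1 / 2) ^ (B + 2)) ^ ⌈y⌉₊ := h1
    _ ≤ 2 ^ N * (1 - (1 / 2) ^ (L + 2)) ^ ⌈y⌉₊ := by
        refine mul_le_mul ?_ ?_ (pow_nonneg (by linarith) _) (by positivity)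
        · exact_mod_cast card_Halves_le hinv N hN
        · exact pow_le_pow_left₀ (by linarith) (by linarith) _
    _ ≤ 2 ^ N * (1 - (1 / 2) ^ (L + 2)) ^ y :=
        mul_le_mul_of_nonneg_left (rpow_le_of_ceil (by linarith) (by linarith)) (by positivity)

/-- Long words. -/
theorem card_bad_long {inv : X → X} (hinv : ∀ x, inv (inv x) = x)
    (hcomm : ∀ (g : G) (x : X), inv (g • x) = g • inv x) {n B : ℕ} (a : Fin n → X)
    (hfree : ∀ l l', a l ≠ inv (a l')) (hn : 0 < n) (hB : 8 * B ^ 2 ≤ n) {g₀ N k : ℕ}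
    (hN : Fintype.card X = 2 * N)
    (horb : ∀ x : X, 2 * g₀ ≤ (MulAction.orbit G x).ncard) (hnk : n ≤ k) :
    ((BadL inv a B (univ : Finset G)).card : ℝ) ≤
      2 ^ N * (29 / 32) ^ ((g₀ : ℝ) / (2 * k)) := by
  rcases halves_nonempty_or (inv := inv) (BadL inv a B (univ : Finset G))
    (fun S hS => (mem_BadL.1 hS).1) with h0 | ⟨R, hR⟩
  · rw [h0, Nat.cast_zero]
    positivity
  set y : ℝ := (g₀ : ℝ) / (2 * k) with hy
  have hkpos : (0 : ℝ) < 2 * k := by
    have : 0 < k := by omega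
    positivity
  obtain ⟨𝒮, h𝒮⟩ := card_BadL_le (G := G) hinv hcomm hR a hfree B (g₀ := g₀) (w := (n + 1) / 2)
    horb (by rw [Fintype.card_fin]; omega) 29 32
    (fun T d hd hW A => by
      have h1 : ∑ x ∈ T, |d x| ≤ ∑ x ∈ T, d x ^ 2 := by
        refine Finset.sum_le_sum fun x hx => ?_
        have h2 := Int.one_le_abs (hd x hx)
        rw [← sq_abs]
        nlinarith
      have h2 : ((4 * B ^ 2 : ℕ) : ℤ) ≤ (((n + 1) / 2 : ℕ) : ℤ) := by
        have : 4 * B ^ 2 ≤ (n + 1) / 2 := by omega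
        exact_mod_cast this
      have h3 : (1 : ℤ) ≤ (((n + 1) / 2 : ℕ) : ℤ) := by
        have : 1 ≤ (n + 1) / 2 := by omega
        exact_mod_cast this
      refine card_small_le T d A B ?_ ?_
      · push_cast at h2 hW ⊢
        linarith
      · linarith) ⌈y⌉₊ (by
      intro m hm
      rw [Fintype.card_fin]
      have h1 : (m : ℝ) < y := Nat.lt_ceil.1 hm
      rw [hy, lt_div_iff₀ hkpos] at h1
      have h2 : m * (2 * k) < g₀ := by exact_mod_cast h1
      have h3 : m * (2 * n) < g₀ :=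
        lt_of_le_of_lt (Nat.mul_le_mul_left _ (Nat.mul_le_mul_left _ hnk)) h2
      have h4 : n ≤ 2 * (n - (n + 1) / 2 + 1) := by omega
      by_contra hcon
      push Not at hcon
      have h5 : n * (m * (2 * n)) < n * g₀ := Nat.mul_lt_mul_of_pos_left h3 hn
      have h6 : g₀ * n ≤ g₀ * (2 * (n - (n + 1) / 2 + 1)) := Nat.mul_le_mul_left _ h4
      nlinarith)
  have h1 := real_of_nat (by norm_num) h𝒮
  calc ((BadL inv a B (univ : Finset G)).card : ℝ)
      ≤ ((BadL inv a B 𝒮).card : ℝ) := by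
        exact_mod_cast Finset.card_le_card (badL_subset a B 𝒮)
    _ ≤ (Halves inv).card * (((29 : ℕ) : ℝ) / ((32 : ℕ) : ℝ)) ^ ⌈y⌉₊ := h1
    _ = (Halves inv).card * (29 / 32) ^ ⌈y⌉₊ := by norm_num
    _ ≤ 2 ^ N * (29 / 32) ^ ⌈y⌉₊ := by
        refine mul_le_mul_of_nonneg_right ?_ (by positivity)
        exact_mod_cast card_Halves_le hinv N hN
    _ ≤ 2 ^ N * (29 / 32) ^ y :=
        mul_le_mul_of_nonneg_left (rpow_le_of_ceil (by norm_num) (by norm_num)) (by positivity)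

/-- The half systems for which some word with a length in `I` has small sums of signs. -/
noncomputable def AllBad (G : Type*) [Group G] [MulAction G X] (inv : X → X) (L : ℕ)
    (I : Finset ℕ) : Finset (Finset X) :=
  @Finset.filter _ (fun S => ∃ n ∈ I, ∃ B ≤ L, B + 2 ≤ n ∧ ∃ a : Fin n → X,
    (∀ l l', a l ≠ inv (a l')) ∧ ∀ σ : G, |∑ l, sgn S (σ • a l)| ≤ B)
    (Classical.decPred _) (Halves inv)

omit [Fintype G] [DecidableEq G] in
theorem mem_AllBad {inv : X → X} {L : ℕ} {I : Finset ℕ} {S : Finset X} :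
    S ∈ AllBad G inv L I ↔ S ∈ Halves inv ∧ ∃ n ∈ I, ∃ B ≤ L, B + 2 ≤ n ∧ ∃ a : Fin n → X,
    (∀ l l', a l ≠ inv (a l')) ∧ ∀ σ : G, |∑ l, sgn S (σ • a l)| ≤ B :=
  @Finset.mem_filter _ _ (Classical.decPred _) _ _

theorem sum_pow_le (M k : ℕ) : ∑ n ∈ Finset.range (k + 1), M ^ n ≤ (M + 1) ^ k := by
  induction k with
  | zero => simp
  | succ k ih =>
    rw [Finset.sum_range_succ]
    have h1 : M ^ k ≤ (M + 1) ^ k := Nat.pow_le_pow_left (by omega) k
    calc ∑ n ∈ Finset.range (k + 1), M ^ n + M ^ (k + 1)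
        ≤ (M + 1) ^ k + M * (M + 1) ^ k := by
          refine Nat.add_le_add ih ?_
          rw [pow_succ, mul_comm]
          exact Nat.mul_le_mul_left _ h1
      _ = (M + 1) ^ (k + 1) := by ring

omit [DecidableEq G] in
/-- The union bound. -/
theorem card_AllBad_le {inv : X → X} {L N k : ℕ} (hN : Fintype.card X = 2 * N) (I : Finset ℕ)
    (hI : ∀ n ∈ I, n ≤ k) (K : ℝ) (hK : 0 ≤ K)
    (hbad : ∀ n ∈ I, ∀ B ≤ L, B + 2 ≤ n → ∀ a : Fin n → X, (∀ l l', a l ≠ inv (a l')) →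
      ((BadL inv a B (univ : Finset G)).card : ℝ) ≤ K) :
    ((AllBad G inv L I).card : ℝ) ≤ (2 * N + 1) ^ k * K := by
  classical
  let W : (n : ℕ) → Finset (Fin n → X) := fun n =>
    univ.filter (fun a => 2 ≤ n ∧ ∀ l l', a l ≠ inv (a l'))
  have hsub : AllBad G inv L I ⊆ I.biUnion (fun n => (W n).biUnion
      (fun a => BadL inv a (min L (n - 2)) (univ : Finset G))) := by
    intro S hS
    obtain ⟨hS1, n, hn, B, hBL, hBn, a, ha, hsum⟩ := mem_AllBad.1 hS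
    rw [Finset.mem_biUnion]
    refine ⟨n, hn, Finset.mem_biUnion.2 ⟨a, ?_, ?_⟩⟩
    · rw [Finset.mem_filter]
      exact ⟨Finset.mem_univ _, by omega, ha⟩
    · rw [mem_BadL]
      refine ⟨hS1, fun σ _ => (hsum σ).trans ?_⟩
      have : B ≤ min L (n - 2) := by omega
      exact_mod_cast this
  have h1 : ((AllBad G inv L I).card : ℝ) ≤ ∑ n ∈ I, ∑ a ∈ W n, K := by
    refine (Nat.cast_le.2 (Finset.card_le_card hsub)).trans ?_
    refine (Nat.cast_le.2 Finset.card_biUnion_le).trans ?_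
    rw [Nat.cast_sum]
    refine Finset.sum_le_sum fun n hn => ?_
    refine (Nat.cast_le.2 Finset.card_biUnion_le).trans ?_
    rw [Nat.cast_sum]
    refine Finset.sum_le_sum fun a ha => ?_
    obtain ⟨-, h2, h3⟩ := Finset.mem_filter.1 ha
    exact hbad n hn _ (min_le_left _ _) (by omega) a h3
  have h2 : ∑ n ∈ I, ∑ a ∈ W n, K ≤ (∑ n ∈ I, ((2 * N) ^ n : ℕ) : ℕ) * K := by
    rw [Nat.cast_sum, Finset.sum_mul]
    refine Finset.sum_le_sum fun n _ => ?_
    rw [Finset.sum_const, nsmul_eq_mul]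
    refine mul_le_mul_of_nonneg_right ?_ hK
    rw [Nat.cast_le]
    refine (Finset.card_le_univ _).trans (le_of_eq ?_)
    rw [Fintype.card_fun, Fintype.card_fin, hN]
  have h3 : ∑ n ∈ I, ((2 * N) ^ n : ℕ) ≤ (2 * N + 1) ^ k := by
    refine le_trans (Finset.sum_le_sum_of_subset (fun n hn => ?_)) (sum_pow_le (2 * N) k)
    rw [Finset.mem_range]
    have := hI n hn
    omega
  calc ((AllBad G inv L I).card : ℝ) ≤ ∑ n ∈ I, ∑ a ∈ W n, K := h1
    _ ≤ (∑ n ∈ I, ((2 * N) ^ n : ℕ) : ℕ) * K := h2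
    _ ≤ (((2 * N + 1) ^ k : ℕ) : ℝ) * K :=
        mul_le_mul_of_nonneg_right (Nat.cast_le.2 h3) hK
    _ = (2 * N + 1) ^ k * K := by push_cast; ring

/-- All words of length at most `k`, first bound. -/
theorem card_AllBad_one {inv : X → X} (hinv : ∀ x, inv (inv x) = x)
    (hcomm : ∀ (g : G) (x : X), inv (g • x) = g • inv x) {g₀ N : ℕ}
    (hN : Fintype.card X = 2 * N)
    (horb : ∀ x : X, 2 * g₀ ≤ (MulAction.orbit G x).ncard) (k L : ℕ) (I : Finset ℕ)
    (hI : ∀ n ∈ I, n ≤ k) :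
    ((AllBad G inv L I).card : ℝ) ≤
      2 ^ N * ((2 * N + 1) ^ k * (1 - (1 / 2) ^ (L + 2)) ^ (2 * (g₀ : ℝ) / ((L + 2) * k))) := by
  have hq2 : ((1 : ℝ) / 2) ^ (L + 2) ≤ 1 := pow_le_one₀ (by norm_num) (by norm_num)
  refine (card_AllBad_le (G := G) hN I hI
    (2 ^ N * (1 - (1 / 2) ^ (L + 2)) ^ (2 * (g₀ : ℝ) / ((L + 2) * k)))
    (mul_nonneg (by positivity) (Real.rpow_nonneg (by linarith) _))
    (fun n hn B hB hBn a ha => card_bad_short hinv hcomm a ha hBn hN horb hB (hI n hn))).trans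
    (le_of_eq (by ring))

/-- All words of length at most `k`, second bound. -/
theorem card_AllBad_two {inv : X → X} (hinv : ∀ x, inv (inv x) = x)
    (hcomm : ∀ (g : G) (x : X), inv (g • x) = g • inv x) {g₀ N : ℕ}
    (hN : Fintype.card X = 2 * N)
    (horb : ∀ x : X, 2 * g₀ ≤ (MulAction.orbit G x).ncard) (k L : ℕ) :
    ((AllBad G inv L (Finset.range (k + 1))).card : ℝ) ≤
      2 ^ N * ((2 * N + 1) ^ (8 * L ^ 2 + 1) *
        (1 - (1 / 2) ^ (L + 2)) ^ (2 * (g₀ : ℝ) / ((L + 2) * (8 * L ^ 2 + 1))) +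
          (2 * N + 1) ^ k * (29 / 32) ^ ((g₀ : ℝ) / (2 * k))) := by
  classical
  set I₁ := (Finset.range (k + 1)).filter (fun n => n ≤ 8 * L ^ 2 + 1) with hI₁
  set I₂ := (Finset.range (k + 1)).filter (fun n => ¬ n ≤ 8 * L ^ 2 + 1) with hI₂
  have hsub : AllBad G inv L (Finset.range (k + 1)) ⊆ AllBad G inv L I₁ ∪ AllBad G inv L I₂ := by
    intro S hS
    obtain ⟨hS1, n, hn, h⟩ := mem_AllBad.1 hS
    rw [Finset.mem_union, mem_AllBad, mem_AllBad]
    by_cases h2 : n ≤ 8 * L ^ 2 + 1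
    · exact Or.inl ⟨hS1, n, Finset.mem_filter.2 ⟨hn, h2⟩, h⟩
    · exact Or.inr ⟨hS1, n, Finset.mem_filter.2 ⟨hn, h2⟩, h⟩
  have h1 := card_AllBad_one (G := G) hinv hcomm hN horb (8 * L ^ 2 + 1) L I₁
    (fun n hn => (Finset.mem_filter.1 hn).2)
  have h2 := card_AllBad_le (G := G) (inv := inv) (L := L) (k := k) hN I₂
    (fun n hn => by
      have := Finset.mem_range.1 (Finset.mem_filter.1 hn).1
      omega)
    (2 ^ N * (29 / 32) ^ ((g₀ : ℝ) / (2 * k))) (by positivity)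
    (fun n hn B hB hBn a ha => by
      have h3 := (Finset.mem_filter.1 hn).2
      have h4 := Finset.mem_range.1 (Finset.mem_filter.1 hn).1
      refine card_bad_long hinv hcomm a ha (by omega) ?_ hN horb (by omega)
      have h5 : B ^ 2 ≤ L ^ 2 := Nat.pow_le_pow_left hB 2
      omega)
  have h3 : ((AllBad G inv L (Finset.range (k + 1))).card : ℝ) ≤
      ((AllBad G inv L I₁).card : ℝ) + ((AllBad G inv L I₂).card : ℝ) := by
    exact_mod_cast (Finset.card_le_card hsub).trans (Finset.card_union_le _ _)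
  push_cast at h1
  calc _ ≤ _ := h3
    _ ≤ _ := add_le_add h1 h2
    _ = _ := by ring

end Pool.Agent.TH170.LV
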