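import Mathlib
import Pool.Agent.TH170.LV.Union
import Pool.Agent.TH170.LV.Direct
import Pool.Agent.TH170.GH.Types

/-!
# The number of families of CM types with words of small level
-/

namespace Pool.Agent.TH170.LV

open NumberField Pool.Agent.H204R3.CM Pool.Agent.W546.GHC Finset Pool.Agent.W548.Sh
  Pool.Agent.TH170.GH

noncomputable section

variable {ι : Type*} [Fintype ι] {E : ι → Type*} [∀ i, Field (E i)] [∀ i, NumberField (E i)]
  [∀ i, IsCMField (E i)]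

/-- The bad families correspond to bad half systems. -/
theorem ncard_le_allBad {L : Type*} [Field L] [NumberField L] [IsGalois ℚ L] (jj : L →+* ℂ)
    [DecidableEq (Σ i, (E i →+* L))]
    (h : ∀ i, ∀ ψ : E i →+* ℂ, ∃ φ : E i →+* L, jj.comp φ = ψ) (k M : ℕ) :
    (({Φ : ∀ i, Set (E i →+* ℂ) | (∀ i, IsCMType (Φ i)) ∧ ¬ LevelFree Φ k M}).ncard) ≤
      (AllBad (L ≃ₐ[ℚ] L) (fun y : Σ i, (E i →+* L) => (⟨y.1, cbar y.2⟩ : Σ i, (E i →+* L))) M
        (Finset.range (k + 1))).card := by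
  classical
  let inv : (Σ i, (E i →+* L)) → Σ i, (E i →+* L) := fun y => ⟨y.1, cbar y.2⟩
  let toC : (Σ i, (E i →+* L)) → Σ i, (E i →+* ℂ) := fun y => ⟨y.1, jj.comp y.2⟩
  have htoC : ∀ y y' : Σ i, (E i →+* L), toC y = toC y' → y = y' := by
    rintro ⟨i, φ⟩ ⟨i', φ'⟩ h
    simp only [toC, Sigma.mk.injEq] at h
    obtain ⟨rfl, h⟩ := h
    have h' := eq_of_heq h
    have h2 : φ = φ' := by
      ext x
      exact jj.injective (RingHom.congr_fun h' x)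
    rw [h2]
  have hsurj : ∀ z, ∃ y, toC y = z := by
    rintro ⟨i, ψ⟩
    obtain ⟨φ, hφ⟩ := h i ψ
    exact ⟨⟨i, φ⟩, by simp only [toC, hφ]⟩
  have hconj : ∀ y : Σ i, (E i →+* L),
      (⟨(toC y).1, ComplexEmbedding.conjugate (toC y).2⟩ : Σ i, (E i →+* ℂ)) = toC (inv y) := by
    rintro ⟨i, φ⟩
    simp only [toC, inv, comp_cbar]
  let u : (∀ i, Set (E i →+* ℂ)) → Finset (Σ i, (E i →+* L)) := fun Φ =>
    univ.filter (fun y => (toC y).2 ∈ Φ (toC y).1)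
  have hu : ∀ Φ y, y ∈ u Φ ↔ (toC y).2 ∈ Φ (toC y).1 := by
    intro Φ y
    simp only [u, Finset.mem_filter, Finset.mem_univ, true_and]
  have huinj : Function.Injective u := by
    intro Φ Ψ hh
    funext i
    ext ψ
    obtain ⟨y, hy⟩ := hsurj ⟨i, ψ⟩
    have h1 : y ∈ u Φ ↔ y ∈ u Ψ := by rw [hh]
    rw [hu, hu, hy] at h1
    exact h1
  rw [← Set.ncard_coe_finset]
  refine Set.ncard_le_ncard_of_injOn u ?_ huinj.injOn (Finset.finite_toSet _)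
  rintro Φ ⟨hΦ, hbad⟩
  rw [Finset.mem_coe, mem_AllBad]
  constructor
  · rw [mem_Halves]
    intro x
    rw [hu, hu]
    have h1 := hΦ (toC x).1 (toC x).2
    rw [h1]
    change _ ↔ (toC (inv x)).2 ∉ Φ (toC (inv x)).1
    rw [← hconj]
  unfold LevelFree at hbad
  push Not at hbad
  obtain ⟨n, hn, B, hB, hBn, a, ha, hsum⟩ := hbad
  choose b hb using fun l => hsurj (a l)
  refine ⟨n, Finset.mem_range.2 (by omega), B, hB, hBn, b, ?_, ?_⟩
  · intro l l' hll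
    apply ha l l'
    have h1 : toC (b l) = toC (inv (b l')) := by
      change toC (b l) = toC ⟨(b l').1, cbar (b l').2⟩
      rw [← hll]
    rw [← hconj, hb, hb] at h1
    exact h1
  · intro g
    obtain ⟨σ, hσ⟩ := Pool.Agent.H977R3.CM.exists_aut jj (g : L ≃+* L)
    refine le_trans (le_of_eq ?_) (hsum σ)
    congr 1
    refine Finset.sum_congr rfl fun l _ => ?_
    have h1 : g • b l ∈ u Φ ↔ (σ : ℂ →+* ℂ).comp (a l).2 ∈ Φ (a l).1 := by
      rw [hu, ← hb l]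
      have h2 : (toC (g • b l)).2 = (σ : ℂ →+* ℂ).comp (toC (b l)).2 := by
        ext x
        exact (hσ _).symm
      rw [h2]
      rfl
    unfold sgn
    by_cases h2 : g • b l ∈ u Φ
    · rw [if_pos h2, if_pos (h1.1 h2)]
    · rw [if_neg h2, if_neg (fun h3 => h2 (h1.2 h3))]

omit [∀ i, IsCMField (E i)] in
theorem setup {L : Type*} [Field L] [NumberField L] [IsGalois ℚ L] (jj : L →+* ℂ)
    (h : ∀ i, ∀ ψ : E i →+* ℂ, ∃ φ : E i →+* L, jj.comp φ = ψ) (g N : ℕ)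
    (hg : ∀ i, 2 * g ≤ Module.finrank ℚ (E i)) (hN : ∑ i, Module.finrank ℚ (E i) = 2 * N) :
    Fintype.card (Σ i, (E i →+* L)) = 2 * N ∧
      ∀ x : Σ i, (E i →+* L), 2 * g ≤ Set.ncard (MulAction.orbit (L ≃ₐ[ℚ] L) x) := by
  classical
  constructor
  · rw [Fintype.card_sigma, ← hN]
    exact Finset.sum_congr rfl fun i _ => Pool.Agent.TH170.GH.card_emb jj (h i)
  · rintro ⟨i, φ⟩
    have h1 : Set.range (fun ψ : E i →+* L => (⟨i, ψ⟩ : Σ i, (E i →+* L))) ⊆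
        MulAction.orbit (L ≃ₐ[ℚ] L) (⟨i, φ⟩ : Σ i, (E i →+* L)) := by
      rintro _ ⟨ψ, rfl⟩
      obtain ⟨σ, hσ⟩ := MulAction.exists_smul_eq (L ≃ₐ[ℚ] L) φ ψ
      exact ⟨σ, by
        change (⟨i, σ • φ⟩ : Σ i, (E i →+* L)) = ⟨i, ψ⟩
        rw [hσ]⟩
    refine le_trans ?_ (Set.ncard_le_ncard h1 (Set.toFinite _))
    rw [Set.ncard_range_of_injective (fun ψ ψ' hh => by simpa using hh), Nat.card_eq_fintype_card,
      Pool.Agent.TH170.GH.card_emb jj (h i)]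
    exact hg i

/-- First bound. -/
theorem ncard_bad_one (E : ι → Type*) [∀ i, Field (E i)] [∀ i, NumberField (E i)]
    [∀ i, IsCMField (E i)] (g N k M : ℕ)
    (hg : ∀ i, 2 * g ≤ Module.finrank ℚ (E i)) (hN : ∑ i, Module.finrank ℚ (E i) = 2 * N) :
    ((({Φ : ∀ i, Set (E i →+* ℂ) | (∀ i, IsCMType (Φ i)) ∧ ¬ LevelFree Φ k M}).ncard : ℕ) : ℝ) ≤
      2 ^ N * ((2 * N + 1) ^ k * (1 - (1 / 2) ^ (M + 2)) ^ (2 * (g : ℝ) / ((M + 2) * k))) := by
  classical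
  obtain ⟨L, _, _, jj, h⟩ := exists_galois E
  obtain ⟨h1, h2⟩ := setup jj h g N hg hN
  refine (Nat.cast_le.2 (ncard_le_allBad jj h k M)).trans ?_
  refine card_AllBad_one (G := L ≃ₐ[ℚ] L) ?_ ?_ h1 h2 k M _ (fun n hn => by
    have := Finset.mem_range.1 hn
    omega)
  · rintro ⟨i, φ⟩
    simp only [cbar_cbar]
  · rintro g ⟨i, φ⟩
    rfl

/-- Second bound. -/
theorem ncard_bad_two (E : ι → Type*) [∀ i, Field (E i)] [∀ i, NumberField (E i)]
    [∀ i, IsCMField (E i)] (g N k M : ℕ)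
    (hg : ∀ i, 2 * g ≤ Module.finrank ℚ (E i)) (hN : ∑ i, Module.finrank ℚ (E i) = 2 * N) :
    ((({Φ : ∀ i, Set (E i →+* ℂ) | (∀ i, IsCMType (Φ i)) ∧ ¬ LevelFree Φ k M}).ncard : ℕ) : ℝ) ≤
      2 ^ N * ((2 * N + 1) ^ (8 * M ^ 2 + 1) *
        (1 - (1 / 2) ^ (M + 2)) ^ (2 * (g : ℝ) / ((M + 2) * (8 * M ^ 2 + 1))) +
          (2 * N + 1) ^ k * (29 / 32) ^ ((g : ℝ) / (2 * k))) := by
  classical
  obtain ⟨L, _, _, jj, h⟩ := exists_galois E
  obtain ⟨h1, h2⟩ := setup jj h g N hg hN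
  refine (Nat.cast_le.2 (ncard_le_allBad jj h k M)).trans ?_
  refine card_AllBad_two (G := L ≃ₐ[ℚ] L) ?_ ?_ h1 h2 k M
  · rintro ⟨i, φ⟩
    simp only [cbar_cbar]
  · rintro g ⟨i, φ⟩
    rfl

end

end Pool.Agent.TH170.LV
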